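import Pool.Agent.N784.CZ.Fin
import Pool.Agent.W164.RC.Bad

/-!
# The order of vanishing of `L(E/K, s)` at `s = 1` over ray class fields

`M` is a number field which contains `i`, `K` is a (narrow) ray class field of `M` whose modulus `𝔮`
is divisible by `2 + 2i`, and `E` is an elliptic curve `y² = x³ - D x` with a fourth root of `D` in `K`
(for example `y² = x³ - x`).  We prove that `L(E/K, s)`, which is analytic for `Re s > 1/2`, satisfies

  `ord_{s=1} L(E/K, s) ≤ C [K : ℚ] (1 + log U(𝔮))`,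

where `U(𝔮)` is the number of residue classes modulo `𝔮` which contain a unit of `M`, and `C` depends
only on `M`.  For `M = ℚ(i)` this gives `ord_{s=1} L(E/K, s) ≤ C [K : ℚ]`, with an absolute
constant, for every ray class field `K`.  (The bounds which come from counting the zeros near `s = 1`
contain the logarithm of the conductor, that is `[K : ℚ] log N(𝔮)`.)

Proof.  (1) `L(E/K, s)` is the product of the Hecke L-functions `L(s - 1/2, ψχ)` and of their
conjugates, `χ` the characters of the ray class group modulo `𝔮` and `ψ` the Hecke character of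
`y² = x³ - x` over `M`: for the primes prime to `𝔮` this follows from Gauss' count of the points and
from the law of decomposition in `K/M` (Frobenius automorphisms).  (2) The continuation and the
functional equation of the Hecke L-functions over every number field.  (3) A mollified second moment
of the whole family to the right of the critical line without loss of logarithms (Selberg's
mollifier, the large sieve for the ray classes, which loses only the number of the unit classes), and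
a version of Selberg's lemma, which give an exponential bound for the number of the members of the
family with `k` zeros within `1/log N(𝔮)` of the centre.
-/

set_option autoImplicit false

open Complex NumberField IsDedekindDomain

namespace Pool.Agent.Results.MP_ae0bd0_nt.RayClassRanks

/-- `K` is the (narrow) ray class field of `M` of modulus `𝔮`: `ι` embeds the ring of integers of `M`
into that of `K`, and `art` is the Artin map (used only for the ideals prime to `𝔮`), with values in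
the automorphisms of the ring of integers of `K` (equivalently, of `K`), such that
* `art` is multiplicative,
* the integers of `M` are the invariants (so `K/M` is Galois and `art` is surjective onto its group),
* the kernel consists of the ideals `𝔞` with `(a) 𝔞 = (b)` for some totally positive
  `a, b ≡ 1 mod 𝔮` (so the Galois group is the narrow ray class group modulo `𝔮`),
* `K/M` is unramified outside `𝔮`: the inertia group at every prime `v` of `K` not dividing `𝔮` is
  trivial,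
* for every prime ideal `𝔭` not dividing `𝔮`, `art 𝔭` is the Frobenius automorphism
  `x ↦ x ^ N(𝔭)` at all primes `v` of `K` above `𝔭`. -/
structure IsRayClassField {M : Type} [Field M] [NumberField M] (𝔮 : Ideal (𝓞 M)) (K : Type)
    [Field K] [NumberField K] (ι : 𝓞 M →+* 𝓞 K) (art : Ideal (𝓞 M) → (𝓞 K ≃+* 𝓞 K)) : Prop where
  mul : ∀ 𝔞 𝔟 : Ideal (𝓞 M), IsCoprime 𝔞 𝔮 → IsCoprime 𝔟 𝔮 → art (𝔞 * 𝔟) = art 𝔞 * art 𝔟
  invariants : ∀ x : 𝓞 K, (∀ 𝔞 : Ideal (𝓞 M), IsCoprime 𝔞 𝔮 → art 𝔞 x = x) ↔ x ∈ ι.range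
  kernel : ∀ 𝔞 : Ideal (𝓞 M), IsCoprime 𝔞 𝔮 → (art 𝔞 = 1 ↔ ∃ a b : 𝓞 M, a - 1 ∈ 𝔮 ∧ b - 1 ∈ 𝔮 ∧
    (∀ τ : M →+* ℝ, 0 < τ a) ∧ (∀ τ : M →+* ℝ, 0 < τ b) ∧ Ideal.span {a} * 𝔞 = Ideal.span {b})
  unramified : ∀ v : HeightOneSpectrum (𝓞 K), ¬ 𝔮.map ι ≤ v.asIdeal →
    ∀ 𝔞 : Ideal (𝓞 M), IsCoprime 𝔞 𝔮 → (∀ x, art 𝔞 x - x ∈ v.asIdeal) → art 𝔞 = 1
  frobenius : ∀ 𝔭 : Ideal (𝓞 M), 𝔭.IsPrime → IsCoprime 𝔭 𝔮 → ∀ v : HeightOneSpectrum (𝓞 K),
    𝔭.map ι ≤ v.asIdeal → ∀ x : 𝓞 K, art 𝔭 x - x ^ Ideal.absNorm 𝔭 ∈ v.asIdeal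

/-- `1 - a n^(-s) + ε n^(1-2s)` -/
noncomputable def localPoly (a ε : ℤ) (n : ℕ) (s : ℂ) : ℂ :=
  1 - (a : ℂ) * (n : ℂ) ^ (-s) + (ε : ℂ) * (n : ℂ) ^ (1 - 2 * s)

/-- the `(a, ε)` which are possible for the Euler factor `(1 - a n^(-s) + ε n^(1-2s))⁻¹` of an
elliptic curve at a place with `n` residue classes: `ε = 1` and `a² ≤ 4 n` (good reduction, Hasse) or
`ε = 0` and `a ∈ {-1, 0, 1}` (bad reduction) -/
def Possible (n : ℕ) (a ε : ℤ) : Prop := (ε = 1 ∧ a ^ 2 ≤ 4 * (n : ℤ)) ∨ (ε = 0 ∧ a ^ 2 ≤ 1)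

section

variable {M : Type} [Field M] [NumberField M] {K : Type} [Field K] [NumberField K]

/-- the places of `K` dividing `𝔮` or `D` -/
def exceptional (𝔮 : Ideal (𝓞 M)) (ι : 𝓞 M →+* 𝓞 K) (D : 𝓞 K) : Set (HeightOneSpectrum (𝓞 K)) :=
  {v | 𝔮.map ι ≤ v.asIdeal ∨ D ∈ v.asIdeal}

open Classical in
/-- The Euler factor at `v` of `y² = x³ - D x`.  If `v` does not divide `𝔮 D` (then it does not divide
`2 D`, the reduction is good) it is `(1 - a_v (Nv)^(-s) + (Nv)^(1-2s))⁻¹`, where `a_v` is `Nv` minus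
the number of affine solutions `(x, y)` of the equation over the residue field `𝓞 K / v`; for the
finitely many other places it is the factor given by `(a v, ε v)`. -/
noncomputable def factor (𝔮 : Ideal (𝓞 M)) (ι : 𝓞 M →+* 𝓞 K) (D : 𝓞 K)
    (a ε : HeightOneSpectrum (𝓞 K) → ℤ) (s : ℂ) (v : HeightOneSpectrum (𝓞 K)) : ℂ :=
  if v ∈ exceptional 𝔮 ι D then (localPoly (a v) (ε v) (Ideal.absNorm v.asIdeal) s)⁻¹
  else (localPoly (((Ideal.absNorm v.asIdeal : ℕ) : ℤ) -
      ((Nat.card {p : (𝓞 K ⧸ v.asIdeal) × (𝓞 K ⧸ v.asIdeal) //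
        p.2 ^ 2 = p.1 ^ 3 - Ideal.Quotient.mk v.asIdeal D * p.1} : ℕ) : ℤ)) 1
      (Ideal.absNorm v.asIdeal) s)⁻¹

/-- the number of residue classes modulo `𝔮` which contain a unit of `M` -/
noncomputable def unitClasses (𝔮 : Ideal (𝓞 M)) : ℕ :=
  (Set.range (fun u : (𝓞 M)ˣ => Ideal.Quotient.mk 𝔮 (u : 𝓞 M))).ncard

end

/-- **Main theorem.** For every number field `M` which contains `i` (given by an embedding `ι₀` of
`ℤ[i]` into the integers of `M`) there is a constant `C` with the following property.  Let `𝔮 ≠ 0` be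
an ideal of `M` divisible by `2 + 2i`, `K` the narrow ray class field of `M` of modulus `𝔮`, and let
`D ≠ 0` be an integer of `K` which has a fourth root in `K`.  For every choice of possible Euler
factors at the finitely many places dividing `𝔮 D` (for example the ones of `E_D : y² = x³ - D x`)
there is a function `L`, analytic for `Re s > 1/2`, which for `Re s > 3/2` is the product over all
places `v` of `K` of the Euler factors of `E_D`; its product with the (finitely many) local polynomials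
at the places dividing `𝔮 D` is entire; its order of vanishing at `s = 1` is finite and at most
`C [K : ℚ] (1 + log U(𝔮))`, where `U(𝔮)` is the number of residue classes modulo `𝔮` which contain a
unit of `M`.  If `M` has only finitely many units (that is, if `M = ℚ(i)`), the order of vanishing is
at most `C [K : ℚ]`. -/
theorem result (M : Type) [Field M] [NumberField M] (ι₀ : GaussianInt →+* 𝓞 M) :
    ∃ C : ℝ, ∀ 𝔮 : Ideal (𝓞 M), 𝔮 ≠ ⊥ → 𝔮 ≤ Ideal.span {ι₀ ⟨2, 2⟩} →
    ∀ (K : Type) [Field K] [NumberField K] (ι : 𝓞 M →+* 𝓞 K)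
      (art : Ideal (𝓞 M) → (𝓞 K ≃+* 𝓞 K)), IsRayClassField 𝔮 K ι art →
    ∀ D : 𝓞 K, D ≠ 0 → (∃ d : 𝓞 K, d ^ 4 = D) →
    ∀ a ε : HeightOneSpectrum (𝓞 K) → ℤ,
      (∀ v ∈ exceptional 𝔮 ι D, Possible (Ideal.absNorm v.asIdeal) (a v) (ε v)) →
    ∃ L : ℂ → ℂ, AnalyticOnNhd ℂ L {s : ℂ | 1 / 2 < s.re} ∧
      (∀ s : ℂ, 3 / 2 < s.re → HasProd (factor 𝔮 ι D a ε s) (L s)) ∧
      (exceptional 𝔮 ι D).Finite ∧
      (∃ F : ℂ → ℂ, Differentiable ℂ F ∧ ∀ s : ℂ, 1 / 2 < s.re →
        F s = L s * ∏ᶠ v ∈ exceptional 𝔮 ι D,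
          localPoly (a v) (ε v) (Ideal.absNorm v.asIdeal) s) ∧
      analyticOrderAt L 1 ≠ ⊤ ∧
      (analyticOrderNatAt L 1 : ℝ) ≤
        C * (Module.finrank ℚ K * (1 + Real.log (unitClasses 𝔮))) ∧
      (Finite (𝓞 M)ˣ → (analyticOrderNatAt L 1 : ℝ) ≤ C * Module.finrank ℚ K) := by
  classical
  obtain ⟨C₀, hC₀, H0⟩ := Pool.Agent.N784.CZ.ran M ι₀
  have hcu : 0 ≤ Real.log (Nat.card (𝓞 M)ˣ : ℝ) := Real.log_natCast_nonneg _
  refine ⟨C₀ * (1 + Real.log (Nat.card (𝓞 M)ˣ : ℝ)),
    fun 𝔮 hbot hle K _ _ ι art hK D hD hd a ε hpos => ?_⟩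
  have hK' : Pool.Agent.N784.CZ.IsRCF 𝔮 K ι art :=
    ⟨hK.mul, hK.invariants, hK.kernel, hK.unramified, hK.frobenius⟩
  obtain ⟨F, hF, hprod, hordF, hle2⟩ := H0 𝔮 hbot hle K ι art hK'
  obtain ⟨d, hd⟩ := hd
  obtain ⟨x, hx, hx0⟩ := Submodule.exists_mem_ne_zero_of_ne_bot hbot
  have hιx : ι x ≠ 0 := fun h => hx0 (Pool.Agent.N784.CZ.ran_inj ι (by rw [h, map_zero]))
  have hfin : (exceptional 𝔮 ι D).Finite := by
    refine ((Pool.Agent.W164.RC.places_finite hιx).subset ?_).union
      (Pool.Agent.W164.RC.places_finite hD)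
    intro v hv
    exact hv (Ideal.mem_map_of_mem ι hx)
  set S : Finset (HeightOneSpectrum (𝓞 K)) := hfin.toFinset with hS
  have hmemS : ∀ v, v ∈ S ↔ v ∈ exceptional 𝔮 ι D := fun v => by rw [hS]; simp
  have hn2 : ∀ v : HeightOneSpectrum (𝓞 K), 2 ≤ Ideal.absNorm v.asIdeal :=
    fun v => Pool.Agent.H921R2.TatePole.two_le_nm v
  have hlp : ∀ (a ε : ℤ) (n : ℕ) (s : ℂ), localPoly a ε n s = Pool.Agent.W164.RC.lpoly a ε n s :=
    fun _ _ _ _ => rfl
  -- places over two
  have htwo : ∀ v : HeightOneSpectrum (𝓞 K), ¬ 𝔮.map ι ≤ v.asIdeal →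
      (Pool.Agent.H921R2.TatePole.below v : ℕ) ≠ 2 :=
    fun v hv hb => hv (Pool.Agent.N833.CZ.le_of_two hle v hb)
  -- the numerator at the exceptional places not dividing `𝔮`
  set g : HeightOneSpectrum (𝓞 K) → ℂ → ℂ := fun v s =>
    if 𝔮.map ι ≤ v.asIdeal then 1
    else Pool.Agent.W164.RC.lpoly (Pool.Agent.W164.RC.tr v) 1 (Ideal.absNorm v.asIdeal) s with hg
  have hgdiff : ∀ v, Differentiable ℂ (g v) := by
    intro v
    rw [hg]
    by_cases h : 𝔮.map ι ≤ v.asIdeal
    · simp only [if_pos h]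
      exact differentiable_const _
    · simp only [if_neg h]
      exact Pool.Agent.W164.RC.lpoly_diff _ _ (hn2 v)
  have hgne : ∀ v (s : ℂ), 1 / 2 < s.re → g v s ≠ 0 := by
    intro v s hs
    rw [hg]
    by_cases h : 𝔮.map ι ≤ v.asIdeal
    · simp only [if_pos h]
      exact one_ne_zero
    · simp only [if_neg h]
      exact Pool.Agent.W164.RC.lpoly_ne (hn2 v) (Pool.Agent.W164.RC.tr_poss v (htwo v h)) hs
  set P : HeightOneSpectrum (𝓞 K) → ℂ → ℂ := fun v s =>
    Pool.Agent.W164.RC.lpoly (a v) (ε v) (Ideal.absNorm v.asIdeal) s with hP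
  have hPdiff : ∀ v, Differentiable ℂ (P v) := fun v => Pool.Agent.W164.RC.lpoly_diff _ _ (hn2 v)
  have hPne : ∀ v ∈ S, ∀ s : ℂ, 1 / 2 < s.re → P v s ≠ 0 := by
    intro v hv s hs
    exact Pool.Agent.W164.RC.lpoly_ne (hn2 v) (hpos v ((hmemS v).1 hv)) hs
  set R : ℂ → ℂ := fun s => ∏ v ∈ S, (g v s * (P v s)⁻¹) with hR
  have hRan : ∀ s : ℂ, 1 / 2 < s.re → AnalyticAt ℂ R s := by
    intro s hs
    rw [hR]
    apply Finset.analyticAt_fun_prod
    intro v hv
    exact ((hgdiff v).analyticAt s).mul (((hPdiff v).analyticAt s).inv (hPne v hv s hs))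
  have hRne : ∀ s : ℂ, 1 / 2 < s.re → R s ≠ 0 := by
    intro s hs
    rw [hR]
    simp only
    rw [Finset.prod_ne_zero_iff]
    intro v hv
    exact mul_ne_zero (hgne v s hs) (inv_ne_zero (hPne v hv s hs))
  have hord : analyticOrderAt (fun s => F s * R s) 1 = analyticOrderAt F 1 :=
    Pool.Agent.W164.RC.order_mul_ne (hF.analyticAt 1) (hRan 1 (by norm_num)) (hRne 1 (by norm_num))
  have hordN : analyticOrderNatAt (fun s => F s * R s) 1 = analyticOrderNatAt F 1 := by
    unfold analyticOrderNatAt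
    rw [hord]
  refine ⟨fun s => F s * R s, ?_, ?_, hfin, ?_, ?_, ?_, ?_⟩
  · intro s hs
    exact (hF.analyticAt s).mul (hRan s hs)
  · intro s hs
    have hs' : 1 / 2 < s.re := by linarith
    have h3 : HasProd (fun v : HeightOneSpectrum (𝓞 K) =>
        if v ∈ S then g v s * (P v s)⁻¹ else 1) (R s) := by
      have h4 : R s = ∏ v ∈ S, (if v ∈ S then g v s * (P v s)⁻¹ else 1) := by
        rw [hR]
        exact Finset.prod_congr rfl fun v hv => by rw [if_pos hv]
      rw [h4]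
      apply hasProd_prod_of_ne_finset_one
      intro v hv
      rw [if_neg hv]
    have h5 := (hprod s hs).mul h3
    refine h5.congr_fun ?_
    intro v
    unfold factor
    by_cases hv : v ∈ exceptional 𝔮 ι D
    · rw [if_pos hv, if_pos ((hmemS v).2 hv), hlp]
      have hg1 := hgne v s hs'
      by_cases hvq : 𝔮.map ι ≤ v.asIdeal
      · rw [if_pos hvq]
        have : g v s = 1 := by rw [hg]; simp only [if_pos hvq]
        rw [this, one_mul, one_mul]
      · rw [if_neg hvq, Pool.Agent.W164.RC.eulerFactor_lpoly]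
        have : g v s = Pool.Agent.W164.RC.lpoly (Pool.Agent.W164.RC.tr v) 1
            (Ideal.absNorm v.asIdeal) s := by rw [hg]; simp only [if_neg hvq]
        rw [← this, ← mul_assoc, inv_mul_cancel₀ hg1, one_mul]
    · have hvS : v ∉ S := fun h => hv ((hmemS v).1 h)
      have hvq : ¬ 𝔮.map ι ≤ v.asIdeal := fun h => hv (Or.inl h)
      have hvD : D ∉ v.asIdeal := fun h => hv (Or.inr h)
      rw [if_neg hv, if_neg hvS, if_neg hvq, mul_one, Pool.Agent.W164.RC.eulerFactor_lpoly, hlp]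
      have hmax : v.asIdeal.IsMaximal := v.isPrime.isMaximal v.ne_bot
      let _ : Field (𝓞 K ⧸ v.asIdeal) := Ideal.Quotient.field v.asIdeal
      have hd4 : (Ideal.Quotient.mk v.asIdeal d) ^ 4 = Ideal.Quotient.mk v.asIdeal D := by
        rw [← map_pow, hd]
      have hd0 : Ideal.Quotient.mk v.asIdeal d ≠ 0 := by
        intro h0
        rw [h0, zero_pow (by norm_num)] at hd4
        apply hvD
        rw [← Ideal.Quotient.eq_zero_iff_mem]
        exact hd4.symm
      have hct := Pool.Agent.W164.RC.card_twist (Ideal.Quotient.mk v.asIdeal d) hd0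
      rw [hd4] at hct
      rw [hct]
      rfl
  · refine ⟨fun s => F s * ∏ v ∈ S, g v s, ?_, ?_⟩
    · exact hF.mul (Differentiable.fun_finsetProd fun v _ => hgdiff v)
    · intro s hs
      have h3 : ∏ᶠ v ∈ exceptional 𝔮 ι D, localPoly (a v) (ε v) (Ideal.absNorm v.asIdeal) s =
          ∏ v ∈ S, P v s := by
        rw [← finprod_mem_coe_finset]
        have : (S : Set (HeightOneSpectrum (𝓞 K))) = exceptional 𝔮 ι D := by
          ext v
          exact hmemS v
        rw [this]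
        rfl
      rw [h3]
      show F s * ∏ v ∈ S, g v s = F s * R s * ∏ v ∈ S, P v s
      rw [hR, mul_assoc, ← Finset.prod_mul_distrib]
      congr 1
      refine Finset.prod_congr rfl fun v hv => ?_
      rw [mul_assoc, inv_mul_cancel₀ (hPne v hv s hs), mul_one]
  · rw [hord]
    exact hordF 1
  · rw [hordN]
    refine hle2.trans ?_
    have hUn : (1 : ℝ) ≤ (Pool.Agent.N784.AD.Un 𝔮 : ℝ) := by
      exact_mod_cast Pool.Agent.N784.AD.one_le_Un hbot
    have hlU : 0 ≤ Real.log (Pool.Agent.N784.AD.Un 𝔮) := Real.log_nonneg hUn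
    show C₀ * (Module.finrank ℚ K * (1 + Real.log (Pool.Agent.N784.AD.Un 𝔮))) ≤
      C₀ * (1 + Real.log (Nat.card (𝓞 M)ˣ : ℝ)) *
        (Module.finrank ℚ K * (1 + Real.log (Pool.Agent.N784.AD.Un 𝔮)))
    refine mul_le_mul_of_nonneg_right ?_ (by positivity)
    nlinarith
  · intro hfu
    rw [hordN]
    refine hle2.trans ?_
    have hUn : (1 : ℝ) ≤ (Pool.Agent.N784.AD.Un 𝔮 : ℝ) := by
      exact_mod_cast Pool.Agent.N784.AD.one_le_Un hbot
    have hU2 : (Pool.Agent.N784.AD.Un 𝔮 : ℝ) ≤ Nat.card (𝓞 M)ˣ := by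
      have h1 : Pool.Agent.N784.AD.Un 𝔮 ≤ Nat.card (𝓞 M)ˣ := by
        unfold Pool.Agent.N784.AD.Un
        rw [← Set.image_univ]
        refine (Set.ncard_image_le Set.finite_univ).trans ?_
        rw [Set.ncard_univ]
      exact_mod_cast h1
    have h2 : Real.log (Pool.Agent.N784.AD.Un 𝔮) ≤ Real.log (Nat.card (𝓞 M)ˣ) :=
      Real.log_le_log (by linarith) hU2
    calc C₀ * (Module.finrank ℚ K * (1 + Real.log (Pool.Agent.N784.AD.Un 𝔮)))
        ≤ C₀ * (Module.finrank ℚ K * (1 + Real.log (Nat.card (𝓞 M)ˣ))) := by gcongr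
      _ = _ := by ring

end Pool.Agent.Results.MP_ae0bd0_nt.RayClassRanks
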